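import Pool.Agent.H72.EN.Targets3

/-!
# From one level to all levels, with the jump tests at maximal frequencies: statements
-/

set_option autoImplicit false

open Finset Pool.Agent.H6.N4D Pool.Agent.H93.EB Pool.Agent.H28.EN

namespace Pool.Agent.H72.EN

/-- the frequencies `β` are maximal for the correlations on the multiples of the primes -/
def MaxQ (lam : ℕ → ℝ) (m : ℕ) (β : ℕ → ℕ → ℝ) : Prop := ∀ n, ∀ q ∈ QQ m,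
  ‖crq lam q (2 ^ m) n (β n q)‖ = Mq lam q (2 ^ m) n

/-- LV4. The inequality for one level, with given maximal frequencies and lifts. -/
def T_LV4 : Prop := ∃ (C : ℝ) (m₁ : ℕ), 0 < C ∧ ∀ (X m A : ℕ) (lam : ℕ → ℝ) (η : ℝ),
  3 ≤ X → m₁ ≤ m → 2 ≤ A → 0 < η → η ≤ 1 → Lio lam →
  ∀ β : ℕ → ℕ → ℝ, MaxQ lam m β → ∀ α : ℕ → ℕ → ℝ, Lift m β α →
    ∃ (α' : ℕ → ℕ → ℝ) (g : ℕ → ℕ → ℕ → ℕ → ℂ),
      (∀ i n, ∀ q ∈ QQ m, BV (2 ^ m) n (g i n q)) ∧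
      (t lam X (m - m / 500) - t lam X (A * m - m / 100)) * Real.log X ≤
        (1 + η) * ((t lam X m - t lam X (A * m)) * Real.log X) +
        C / η * ((∑ i ∈ range 4, bv lam X m (fun n _ => α' i n) (g i)) + bj lam X m α +
          lg X (fun n => ind (¬ Reg lam (2 ^ (m - 15)) n)) +
          (1 / 2) ^ (m / 2000) * Real.log X + A * m + 1)

/-- the largest sum of jump tests with the best lifts of maximal frequencies -/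
noncomputable def bK (lam : ℕ → ℝ) (X m : ℕ) : ℝ :=
  sSup {x | ∃ β : ℕ → ℕ → ℝ, MaxQ lam m β ∧ ∀ α : ℕ → ℕ → ℝ, Lift m β α → x ≤ bj lam X m α}

/-- BAK. Use of `bA` and `bK`. -/
def T_BAK : Prop := ∀ (lam : ℕ → ℝ) (X m : ℕ), (∀ n, |lam n| ≤ 1) →
  0 ≤ bA lam X m ∧ 0 ≤ bK lam X m ∧
  (∀ (α : ℕ → ℝ) (g : ℕ → ℕ → ℕ → ℂ), (∀ n, ∀ q ∈ QQ m, BV (2 ^ m) n (g n q)) →
    bv lam X m (fun n _ => α n) g ≤ bA lam X m) ∧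
  (∃ β : ℕ → ℕ → ℝ, MaxQ lam m β ∧
    ∃ α : ℕ → ℕ → ℝ, Lift m β α ∧ bj lam X m α ≤ bK lam X m + 1) ∧
  (∃ (α : ℕ → ℝ) (g : ℕ → ℕ → ℕ → ℂ), (∀ n, ∀ q ∈ QQ m, BV (2 ^ m) n (g n q)) ∧
    bA lam X m ≤ bv lam X m (fun n _ => α n) g + 1) ∧
  ∃ β : ℕ → ℕ → ℝ, MaxQ lam m β ∧
    ∀ α : ℕ → ℕ → ℝ, Lift m β α → bK lam X m ≤ bj lam X m α + 1

/-- LEV4. The inequality of one level. -/
def T_LEV4 : Prop := ∃ (C : ℝ) (m₁ : ℕ), 0 < C ∧ 15 ≤ m₁ ∧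
  ∀ (η : ℝ) (A X m : ℕ) (lam : ℕ → ℝ), 0 < η → η ≤ 1 → 2 ≤ A → 3 ≤ X → m₁ ≤ m → Lio lam →
    lg X (fun n => phi (M lam (2 ^ (m - m / 500)) n)) -
        lg X (fun n => phi (M lam (2 ^ (A * m - m / 100)) n)) ≤
      (1 + η) * (lg X (fun n => phi (M lam (2 ^ m) n)) -
        lg X (fun n => phi (M lam (2 ^ (A * m)) n))) +
      C / η * (bA lam X m + bK lam X m + lg X (fun n => ind (¬ Reg lam (2 ^ (m - 15)) n)) +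
        (1 / 2) ^ (m / 2000) * Real.log X + A * m + 1)

/-- BES4. The inequality of Bessel for all levels, from a base of bounded scale, for functions
with values `±1` and levels up to `log log X`. -/
def T_BES4 : Prop := ∃ B : ℕ, 1 ≤ B ∧ ∀ ε : ℝ, 0 < ε → ∃ e : ℝ, 0 < e ∧ ∀ R : ℕ,
  ∃ s₀ : ℕ, ∀ s, s₀ ≤ s → ∃ X₀ : ℕ, ∀ (X K k₁ : ℕ) (lam : ℕ → ℝ) (m : ℕ → ℕ),
    X₀ ≤ X → (∀ n, lam n = 1 ∨ lam n = -1) → Base lam R (2 ^ s) e X →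
    B * s ≤ m 0 → (∀ i, i + 1 < K → B * m i ≤ m (i + 1)) → (∀ i < K, m i ≤ k₁) →
    (4 : ℝ) ^ k₁ ≤ Real.log X →
    (∀ (α : ℕ → ℕ → ℝ) (g : ℕ → ℕ → ℕ → ℕ → ℂ),
      (∀ i < K, ∀ n, ∀ q ∈ QQ (m i), BV (2 ^ m i) n (g i n q)) →
      besSum lam X K m (fun i n _ => α i n) g ≤ ε * Real.log X) ∧
    (∀ β : ℕ → ℕ → ℕ → ℝ, (∀ i < K, MaxQ lam (m i) (β i)) →
      ∃ α : ℕ → ℕ → ℕ → ℝ, (∀ i < K, Lift (m i) (β i) (α i)) ∧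
        ∑ i ∈ range K, bj lam X (m i) (α i) ≤ ε * Real.log X)

end Pool.Agent.H72.EN
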