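import Pool.Agent.H93.EB.Targets
import Pool.Agent.H28.EN.Defs

/-!
# From one level to all levels: statements

The energy decreases by little on a long range of scales. First part: sequences of real numbers;
second part: logarithmic averages and the tests of one level.
-/

set_option autoImplicit false

open Finset Pool.Agent.H6.N4D Pool.Agent.H93.EB Pool.Agent.H28.EN

namespace Pool.Agent.H72.EN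

/-! ## Sequences -/

/-- RMN. The running minimum. -/
def T_RMN : Prop := ∀ (t : ℕ → ℝ) (M : ℕ) (δ : ℝ),
  (∀ i j, i ≤ j → j ≤ M → t j ≤ t i + δ) →
  ∃ T : ℕ → ℝ, Antitone T ∧ (∀ k ≤ M, T k ≤ t k ∧ t k ≤ T k + δ) ∧ ∀ k, ∃ j ≤ k, T k = t j

/-- SWP. Sums of differences of a monotone sequence. -/
def T_SWP : Prop := ∀ (S : Finset ℕ) (w T : ℕ → ℝ) (a b : ℕ → ℕ), (∀ m ∈ S, 0 ≤ w m) →
  (∀ m ∈ S, a m ≤ b m) → Antitone T →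
  (∀ (M : ℕ) (ω : ℝ), (∀ m ∈ S, b m ≤ M) →
    (∀ j < M, ∑ m ∈ S.filter (fun m => a m ≤ j ∧ j < b m), w m ≤ ω) →
    ∑ m ∈ S, w m * (T (a m) - T (b m)) ≤ ω * (T 0 - T M)) ∧
  ∀ (p r : ℕ) (ω : ℝ), p ≤ r →
    (∀ j, p ≤ j → j < r → ω ≤ ∑ m ∈ S.filter (fun m => a m ≤ j ∧ j < b m), w m) →
    ω * (T p - T r) ≤ ∑ m ∈ S, w m * (T (a m) - T (b m))

/-- WT1. -/
def T_WT1 : Prop := ∀ m₀ me j : ℕ, 3500 ≤ m₀ → m₀ ≤ j → j < me - me / 500 →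
  1 / 600 ≤ ∑ m ∈ (Icc m₀ me).filter (fun m => m - m / 500 ≤ j ∧ j < m), 1 / (m : ℝ)

/-- WT2. -/
def T_WT2 : Prop := ∀ A m₀ me j : ℕ, 2 ≤ A → 100 * A ≤ m₀ →
  ∑ m ∈ (Icc m₀ me).filter (fun m => A * m - m / 100 ≤ j ∧ j < A * m), 1 / (m : ℝ) ≤
    1 / (25 * A)

/-- WT3. -/
def T_WT3 : Prop := ∀ A m₀ me j : ℕ, 1 ≤ A → 1 ≤ m₀ →
  ∑ m ∈ (Icc m₀ me).filter (fun m => m ≤ j ∧ j < A * m), 1 / (m : ℝ) ≤ A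

/-- WT4. -/
def T_WT4 : Prop := ∀ m₀ me j : ℕ, 1 ≤ m₀ →
  ∑ m ∈ (Icc m₀ me).filter (fun m => m - 15 ≤ j ∧ j < m), 1 / (m : ℝ) ≤ 15 / m₀

/-- sparse sequences of levels between `m₀` and `me` -/
def Chn (B m₀ me K : ℕ) (c : ℕ → ℕ) : Prop :=
  (∀ i < K, m₀ ≤ c i ∧ c i ≤ me) ∧ ∀ i, i + 1 < K → B * c i ≤ c (i + 1)

/-- BLK. From sparse sequences to the logarithmic sum. -/
def T_BLK : Prop := ∀ (B m₀ me : ℕ) (b : ℕ → ℝ) (E : ℝ), 2 ≤ B → 1 ≤ m₀ → (∀ m, 0 ≤ b m) →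
  (∀ (K : ℕ) (c : ℕ → ℕ), Chn B m₀ me K c → ∑ i ∈ range K, b (c i) ≤ E) →
  ∑ m ∈ Icc m₀ me, 1 / (m : ℝ) * b m ≤ 2 * B * E

/-- TEL. The telescope. -/
def T_TEL : Prop := ∀ (A B m₀ me : ℕ) (η C δ E : ℝ) (t u b r : ℕ → ℝ),
  2 ≤ A → 2 ≤ B → 3500 ≤ m₀ → 100 * A ≤ m₀ → m₀ ≤ me - me / 500 → 0 ≤ η → η ≤ 1 → 0 ≤ C →
  0 ≤ δ → (∀ k, 0 ≤ t k ∧ t k ≤ 1) → (∀ k, 0 ≤ u k ∧ u k ≤ 2) →
  (∀ i j, i ≤ j → j ≤ A * me → t j ≤ t i + δ ∧ u j ≤ u i + δ) → (∀ m, 0 ≤ b m) →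
  (∀ (K : ℕ) (c : ℕ → ℕ), Chn B m₀ me K c → ∑ i ∈ range K, b (c i) ≤ E) →
  (∀ m ∈ Icc m₀ me, t (m - m / 500) - t (A * m - m / 100) ≤
    (1 + η) * (t m - t (A * m)) + b m + C * (u (m - 15) - u m) + r m) →
  t m₀ - t (me - me / 500) ≤ 24 / A + 600 * η * A + 1200 * B * E + 18000 * C / m₀ +
    600 * ∑ m ∈ Icc m₀ me, 1 / (m : ℝ) * r m +
    600 * (3 + C) * δ * (1 + ∑ m ∈ Icc m₀ me, 1 / (m : ℝ))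

/-- KCH. Sparse sequences are short. -/
def T_KCH : Prop := ∀ (B m₀ me K : ℕ) (c : ℕ → ℕ), 2 ≤ B → 1 ≤ m₀ → 1 ≤ me →
  Chn B m₀ me K c → 2 ^ K ≤ 2 * me

/-- HAR. Harmonic sums. -/
def T_HAR : Prop := ∀ m₀ me : ℕ, 1 ≤ m₀ → 1 ≤ me →
  0 ≤ ∑ m ∈ Icc m₀ me, 1 / (m : ℝ) ∧ ∑ m ∈ Icc m₀ me, 1 / (m : ℝ) ≤ 1 + Real.log me

/-- GSM. A geometric sum. -/
def T_GSM : Prop := ∀ m₀ me : ℕ,
  ∑ m ∈ Icc m₀ me, ((1 : ℝ) / 2) ^ (m / 2000) ≤ 4000 * (1 / 2) ^ (m₀ / 2000)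

/-- LIM. The lengths are small. -/
def T_LIM : Prop := ∀ ε : ℝ, 0 < ε → ∃ X₀ : ℕ, 3 ≤ X₀ ∧ ∀ X k : ℕ, X₀ ≤ X →
  (k : ℝ) ≤ 2 * Real.log X ^ (24 / 25 : ℝ) →
    ((k : ℝ) + 1) * (1 + Real.log (k + 1)) ≤ ε * Real.log X

/-! ## Logarithmic averages -/

/-- MN2. The energy does not increase with the length (powers of two, no loss from the ends). -/
def T_MN2 : Prop := ∃ C : ℝ, 0 < C ∧ ∀ (X k l : ℕ) (lam : ℕ → ℝ), 3 ≤ X →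
  (∀ n, |lam n| ≤ 1) → k ≤ l →
    lg X (fun n => phi (M lam (2 ^ l) n)) ≤ lg X (fun n => phi (M lam (2 ^ k) n)) + C * (l + 1) ∧
    lg X (fun n => M lam (2 ^ l) n ^ 2) ≤ lg X (fun n => M lam (2 ^ k) n ^ 2) + C * (l + 1)

/-- FAI. The share of the windows which are not regular. -/
def T_FAI : Prop := ∃ C : ℝ, 0 < C ∧ ∀ (X m : ℕ) (lam : ℕ → ℝ), 3 ≤ X → (∀ n, |lam n| ≤ 1) →
  15 ≤ m →
    lg X (fun n => ind (¬ Reg lam (2 ^ (m - 15)) n)) ≤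
      10 ^ 8 * (lg X (fun n => M lam (2 ^ (m - 15)) n ^ 2) -
        lg X (fun n => M lam (2 ^ m) n ^ 2)) + C * (m + 1)

/-- TBD. The energies are bounded. -/
def T_TBD : Prop := ∀ (X k : ℕ) (lam : ℕ → ℝ), 3 ≤ X → (∀ n, |lam n| ≤ 1) →
  0 ≤ t lam X k ∧ t lam X k ≤ 1 ∧ 0 ≤ t2 lam X k ∧ t2 lam X k ≤ 2

/-! ## The tests of one level -/

/-- the sum of the tests of the level `m` -/
noncomputable def bv (lam : ℕ → ℝ) (X m : ℕ) (α : ℕ → ℕ → ℝ) (g : ℕ → ℕ → ℕ → ℂ) : ℝ :=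
  lg X (fun n => ∑ q ∈ QQ m, 1 / (q : ℝ) * zz lam q (2 ^ m) n (α n q) (g n q) ^ 2)

/-- the frequencies `α` are lifts of the frequencies `β` -/
def Lift (m : ℕ) (β α : ℕ → ℕ → ℝ) : Prop := ∀ n, ∀ q ∈ QQ m, ∃ b : ℤ,
  nd (α n q - β n q - (b : ℝ) / q) ≤ 1 / 10 ^ 4 / 2 ^ m

/-- the largest sum of tests with frequencies which do not depend on the prime -/
noncomputable def bA (lam : ℕ → ℝ) (X m : ℕ) : ℝ :=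
  sSup {x | ∃ (α : ℕ → ℝ) (g : ℕ → ℕ → ℕ → ℂ), (∀ n, ∀ q ∈ QQ m, BV (2 ^ m) n (g n q)) ∧
    x = bv lam X m (fun n _ => α n) g}

/-- the largest sum of tests with the best lifts of given frequencies -/
noncomputable def bB (lam : ℕ → ℝ) (X m : ℕ) : ℝ :=
  sSup {x | ∃ β : ℕ → ℕ → ℝ, ∀ α : ℕ → ℕ → ℝ, Lift m β α →
    x ≤ bv lam X m α (fun _ _ _ => 1)}

/-- BAB. Use of `bA` and `bB`. -/
def T_BAB : Prop := ∀ (lam : ℕ → ℝ) (X m : ℕ), (∀ n, |lam n| ≤ 1) →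
  0 ≤ bA lam X m ∧ 0 ≤ bB lam X m ∧
  (∀ (α : ℕ → ℝ) (g : ℕ → ℕ → ℕ → ℂ), (∀ n, ∀ q ∈ QQ m, BV (2 ^ m) n (g n q)) →
    bv lam X m (fun n _ => α n) g ≤ bA lam X m) ∧
  (∀ β : ℕ → ℕ → ℝ, ∃ α : ℕ → ℕ → ℝ, Lift m β α ∧
    bv lam X m α (fun _ _ _ => 1) ≤ bB lam X m + 1) ∧
  (∃ (α : ℕ → ℝ) (g : ℕ → ℕ → ℕ → ℂ), (∀ n, ∀ q ∈ QQ m, BV (2 ^ m) n (g n q)) ∧
    bA lam X m ≤ bv lam X m (fun n _ => α n) g + 1) ∧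
  ∃ β : ℕ → ℕ → ℝ, ∀ α : ℕ → ℕ → ℝ, Lift m β α →
    bB lam X m ≤ bv lam X m α (fun _ _ _ => 1) + 1

/-- CHN. The inequality of Bessel for the largest sums of tests. -/
def T_CHN : Prop := ∃ (B : ℕ) (C : ℝ), 1 ≤ B ∧ 0 < C ∧ ∀ R : ℕ, ∃ s₀ : ℕ,
  ∀ (s X K k₁ : ℕ) (lam : ℕ → ℝ) (e : ℝ) (m : ℕ → ℕ),
    s₀ ≤ s → 3 ≤ X → 0 ≤ e → (∀ n, |lam n| ≤ 1) → Base lam R (2 ^ s) e X → K ≤ 2 ^ (s / B) →
    B * s ≤ m 0 → (∀ i, i + 1 < K → B * m i ≤ m (i + 1)) → (∀ i < K, m i ≤ k₁) →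
    ∑ i ∈ range K, (bA lam X (m i) + bB lam X (m i)) ≤
      2 * (C * e + (1 / 2) ^ (s / B)) * Real.log X + C * K * (k₁ + 1)

/-- LEV. The inequality of one level. -/
def T_LEV : Prop := ∃ (C : ℝ) (m₁ : ℕ), 0 < C ∧ 15 ≤ m₁ ∧
  ∀ (η : ℝ) (A X m : ℕ) (lam : ℕ → ℝ), 0 < η → η ≤ 1 → 2 ≤ A → 3 ≤ X → m₁ ≤ m → Lio lam →
    lg X (fun n => phi (M lam (2 ^ (m - m / 500)) n)) -
        lg X (fun n => phi (M lam (2 ^ (A * m - m / 100)) n)) ≤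
      (1 + η) * (lg X (fun n => phi (M lam (2 ^ m) n)) -
        lg X (fun n => phi (M lam (2 ^ (A * m)) n))) +
      C / η * (bA lam X m + bB lam X m + lg X (fun n => ind (¬ Reg lam (2 ^ (m - 15)) n)) +
        (1 / 2) ^ (m / 2000) * Real.log X + A * m + 1)

end Pool.Agent.H72.EN
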