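import Pool.Agent.H72.EN.Targets

/-!
# Harmonic sums, and the lengths are small
-/

set_option autoImplicit false

open Finset

namespace Pool.Agent.H72.EN

theorem pf_HAR' : T_HAR := by
  intro m₀ me h1 h2
  refine ⟨sum_nonneg fun m _ => by positivity, ?_⟩
  have h3 := harmonic_le_one_add_log me
  rw [harmonic_eq_sum_Icc] at h3
  push_cast at h3
  refine le_trans ?_ h3
  refine (sum_le_sum_of_subset_of_nonneg (t := Icc 1 me) ?_ fun m _ _ => by positivity).trans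
    (le_of_eq ?_)
  · intro m hm
    rw [mem_Icc] at hm ⊢
    omega
  · exact sum_congr rfl fun m _ => by rw [one_div]

theorem pf_LIM' : T_LIM := by
  intro ε hε
  obtain ⟨X₀, hX₀⟩ := exists_nat_ge (Real.exp (max 1 ((159 / ε) ^ 50)))
  refine ⟨max 3 X₀, le_max_left _ _, ?_⟩
  intro X k hX hk
  have hXX : X₀ ≤ X := le_trans (le_max_right _ _) hX
  have hXr : Real.exp (max 1 ((159 / ε) ^ 50)) ≤ X := hX₀.trans (by exact_mod_cast hXX)
  have hX0 : (0 : ℝ) < X := lt_of_lt_of_le (Real.exp_pos _) hXr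
  have hy : max 1 ((159 / ε) ^ 50) ≤ Real.log X := (Real.le_log_iff_exp_le hX0).2 hXr
  set y := Real.log X with hyd
  have hy1 : 1 ≤ y := le_trans (le_max_left _ _) hy
  have hy2 : (159 / ε) ^ 50 ≤ y := le_trans (le_max_right _ _) hy
  have hy0 : 0 < y := by linarith
  have hk0 : (0 : ℝ) ≤ k := Nat.cast_nonneg _
  have h1 : 1 ≤ y ^ (24 / 25 : ℝ) := Real.one_le_rpow hy1 (by norm_num)
  have h2 : (k : ℝ) + 1 ≤ 3 * y ^ (24 / 25 : ℝ) := by linarith
  have h3 : y ^ (24 / 25 : ℝ) ≤ y := by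
    have := Real.rpow_le_rpow_of_exponent_le hy1 (show (24 / 25 : ℝ) ≤ 1 by norm_num)
    rwa [Real.rpow_one] at this
  have h4 : Real.log ((k : ℝ) + 1) ≤ Real.log 3 + Real.log y := by
    rw [← Real.log_mul (by norm_num) hy0.ne']
    exact Real.log_le_log (by linarith) (by linarith)
  have h5 : Real.log 3 ≤ 2 := by
    have := Real.log_le_sub_one_of_pos (show (0 : ℝ) < 3 by norm_num)
    linarith
  have h6 : Real.log y ≤ 50 * y ^ (1 / 50 : ℝ) := by
    have := Real.log_le_rpow_div hy0.le (show (0 : ℝ) < 1 / 50 by norm_num)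
    refine this.trans (le_of_eq ?_)
    field_simp
  have h7 : 1 ≤ y ^ (1 / 50 : ℝ) := Real.one_le_rpow hy1 (by norm_num)
  have h8 : 1 + Real.log ((k : ℝ) + 1) ≤ 53 * y ^ (1 / 50 : ℝ) := by linarith
  have hlog0 : 0 ≤ Real.log ((k : ℝ) + 1) := Real.log_nonneg (by linarith)
  have h9 : ((k : ℝ) + 1) * (1 + Real.log (k + 1)) ≤
      3 * y ^ (24 / 25 : ℝ) * (53 * y ^ (1 / 50 : ℝ)) :=
    mul_le_mul h2 h8 (by linarith) (by positivity)
  have h10 : 3 * y ^ (24 / 25 : ℝ) * (53 * y ^ (1 / 50 : ℝ)) = 159 * y ^ (49 / 50 : ℝ) := by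
    have : y ^ (24 / 25 : ℝ) * y ^ (1 / 50 : ℝ) = y ^ (49 / 50 : ℝ) := by
      rw [← Real.rpow_add hy0]; norm_num
    rw [← this]; ring
  have h11 : 159 / ε ≤ y ^ (1 / 50 : ℝ) := by
    have h12 : ((159 / ε) ^ 50) ^ (1 / 50 : ℝ) ≤ y ^ (1 / 50 : ℝ) :=
      Real.rpow_le_rpow (by positivity) hy2 (by norm_num)
    refine le_trans (le_of_eq ?_) h12
    rw [← Real.rpow_natCast, ← Real.rpow_mul (by positivity)]
    norm_num
  have h13 : y = y ^ (49 / 50 : ℝ) * y ^ (1 / 50 : ℝ) := by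
    rw [← Real.rpow_add hy0]; norm_num
  rw [div_le_iff₀ hε] at h11
  have h14 : 0 < y ^ (49 / 50 : ℝ) := Real.rpow_pos_of_pos hy0 _
  calc ((k : ℝ) + 1) * (1 + Real.log (k + 1)) ≤ 159 * y ^ (49 / 50 : ℝ) := h9.trans h10.le
    _ ≤ (y ^ (1 / 50 : ℝ) * ε) * y ^ (49 / 50 : ℝ) := by gcongr
    _ = ε * (y ^ (49 / 50 : ℝ) * y ^ (1 / 50 : ℝ)) := by ring
    _ = ε * y := by rw [← h13]

end Pool.Agent.H72.EN
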