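import Pool.Agent.H72.EN.EN
import Pool.Agent.H25.ENL.RMN
import Pool.Agent.H14.EN.SWP
import Pool.Agent.H25.ENL.WT1
import Pool.Agent.H14.EN.WT2
import Pool.Agent.H97.ENL.WT3
import Pool.Agent.H85.ENL.WT4
import Pool.Agent.H69.ENL.BLK
import Pool.Agent.H85.ENL.TEL
import Pool.Agent.H62.ENL.KCH
import Pool.Agent.H72.EN.HL
import Pool.Agent.H35.ENL.GSM
import Pool.Agent.H67.ENL.MN2
import Pool.Agent.H46.ENL.FAI
import Pool.Agent.H91.ENL.TBD
import Pool.Agent.H38.EL.BAB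
import Pool.Agent.H38.EL.CHN

/-!
# The energy is almost constant on the whole range of scales: composition
-/

set_option autoImplicit false

open Finset Pool.Agent.H6.N4D Pool.Agent.H93.EB Pool.Agent.H28.EN

namespace Pool.Agent.H72.EN

theorem tel : T_TEL := Pool.Agent.H85.ENL.pf_TEL Pool.Agent.H25.ENL.pf_RMN
  Pool.Agent.H14.EN.pf_SWP Pool.Agent.H25.ENL.pf_WT1 Pool.Agent.H14.EN.pf_WT2
  Pool.Agent.H97.ENL.pf_WT3 Pool.Agent.H85.ENL.pf_WT4 Pool.Agent.H69.ENL.pf_BLK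

/-- EN from the inequality of Bessel and the inequality of one level -/
theorem en_of (hBES : Pool.Agent.H93.EB.T_BES) (hLEV : T_LEV) : T_EN :=
  pf_EN tel Pool.Agent.H62.ENL.pf_KCH pf_HAR' Pool.Agent.H35.ENL.pf_GSM
    pf_LIM' Pool.Agent.H67.ENL.pf_MN2 Pool.Agent.H46.ENL.pf_FAI
    Pool.Agent.H91.ENL.pf_TBD Pool.Agent.H38.EL.pf_BAB
    (Pool.Agent.H38.EL.pf_CHN Pool.Agent.H38.EL.pf_BAB hBES) hLEV

end Pool.Agent.H72.EN
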