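import Pool.Agent.H72.EN.Targets
import Pool.Agent.H78.N4.LEVT

/-!
# The inequality of one level: from given test data to the largest sums of tests
-/

set_option autoImplicit false

open Finset Pool.Agent.H6.N4D Pool.Agent.H93.EB Pool.Agent.H28.EN

namespace Pool.Agent.H72.EN

theorem lev_of (hBAB : T_BAB) (h : Pool.Agent.H78.N4.LEV.T_LEV) : T_LEV := by
  obtain ⟨C, m₁, hC, h⟩ := h
  refine ⟨4 * C, max m₁ 15, by positivity, le_max_right _ _, ?_⟩
  intro η A X m lam h0 h1 hA hX hm hlam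
  have hl1 : ∀ n, |lam n| ≤ 1 := by
    intro n
    rcases hlam.pm n with h | h <;> rw [h] <;> norm_num
  have hY : 0 < Real.log X := by
    apply Real.log_pos
    have : (3 : ℝ) ≤ X := by exact_mod_cast hX
    linarith
  obtain ⟨a0, b0, hA1, hB1, -, -⟩ := hBAB lam X m hl1
  obtain ⟨β, hβ⟩ := h X m A lam η hX (le_trans (le_max_left _ _) hm) hA h0 h1 hlam
  obtain ⟨α, hα, hα2⟩ := hB1 β
  obtain ⟨α', g, hg, hmain⟩ := hβ α hα
  have ht : ∀ k, t lam X k * Real.log X = lg X (fun n => phi (M lam (2 ^ k) n)) := by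
    intro k
    unfold t
    rw [div_mul_cancel₀ _ hY.ne']
  rw [sub_mul, sub_mul, ht, ht, ht, ht] at hmain
  refine hmain.trans ?_
  have hs : ∑ i ∈ range 4, Pool.Agent.H78.N4.LEV.tst lam X m (fun n _ => α' i n) (g i) ≤
      4 * bA lam X m := by
    have : ∀ i ∈ range 4, Pool.Agent.H78.N4.LEV.tst lam X m (fun n _ => α' i n) (g i) ≤
        bA lam X m := fun i _ => hA1 (α' i) (g i) (hg i)
    refine (sum_le_card_nsmul _ _ _ this).trans (le_of_eq ?_)
    simp
  have hs2 : Pool.Agent.H78.N4.LEV.tst lam X m α (fun _ _ _ => 1) ≤ bB lam X m + 1 := hα2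
  have hind0 : ∀ n : ℕ, 0 ≤ ind (¬ Reg lam (2 ^ (m - 15)) n) := by
    classical
    intro n
    unfold ind
    by_cases hc : ¬ Reg lam (2 ^ (m - 15)) n
    · rw [if_pos hc]; exact zero_le_one
    · rw [if_neg hc]
  have hind : 0 ≤ lg X (fun n => ind (¬ Reg lam (2 ^ (m - 15)) n)) := by
    unfold lg
    exact sum_nonneg fun n _ => div_nonneg (hind0 n) (Nat.cast_nonneg _)
  have hD : 0 ≤ C / η := by positivity
  have hpow : 0 ≤ ((1 : ℝ) / 2) ^ (m / 2000) * Real.log X := by positivity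
  have hAm : (0 : ℝ) ≤ (A : ℝ) * m := by positivity
  have e1 : 4 * C / η * (bA lam X m + bB lam X m +
      lg X (fun n => ind (¬ Reg lam (2 ^ (m - 15)) n)) + (1 / 2) ^ (m / 2000) * Real.log X +
        A * m + 1) = C / η * (4 * (bA lam X m + bB lam X m +
      lg X (fun n => ind (¬ Reg lam (2 ^ (m - 15)) n)) + (1 / 2) ^ (m / 2000) * Real.log X +
        A * m + 1)) := by ring
  rw [e1]
  have e2 : ∑ i ∈ range 4, Pool.Agent.H78.N4.LEV.tst lam X m (fun n _ => α' i n) (g i) +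
          Pool.Agent.H78.N4.LEV.tst lam X m α (fun _ _ _ => 1) +
          lg X (fun n => ind (¬ Reg lam (2 ^ (m - 15)) n)) +
          (1 / 2) ^ (m / 2000) * Real.log X + A * m + 1 ≤ 4 * (bA lam X m + bB lam X m +
      lg X (fun n => ind (¬ Reg lam (2 ^ (m - 15)) n)) + (1 / 2) ^ (m / 2000) * Real.log X +
        A * m + 1) := by linarith
  have := mul_le_mul_of_nonneg_left e2 hD
  linarith

end Pool.Agent.H72.EN
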