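import Pool.Agent.H72.EN.All
import Pool.Agent.H72.EN.LevOf
import Pool.Agent.H78.N4.LEV
import Pool.Agent.H28.EN.Targets2
import Pool.Agent.H1.ENW.GRE
import Pool.Agent.H23.EN.TOP
import Pool.Agent.H46.EN.SPL
import Pool.Agent.H28.EN.CL2
import Pool.Agent.H28.EN.BRK
import Pool.Agent.H40.EN.CLB
import Pool.Agent.H51.EN1.ON2
import Pool.Agent.H41.EN.MQF
import Pool.Agent.H88.EN.FAR
import Pool.Agent.H60.EN1.GEO
import Pool.Agent.H5.EN.SLO
import Pool.Agent.H90.EN.PK1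
import Pool.Agent.H60.EN1.PK2
import Pool.Agent.H60.EN1.UNF
import Pool.Agent.H73.EN.NDS
import Pool.Agent.H69.EN.MID
import Pool.Agent.H23.EN.DIF
import Pool.Agent.H38.EN.TST
import Pool.Agent.H90.EN.PHI
import Pool.Agent.H67.ENM.MAT
import Pool.Agent.H67.ENM.MBD
import Pool.Agent.H88.ENM.SC1
import Pool.Agent.H10.ENM.SC2
import Pool.Agent.H20.ENM.QMS
import Pool.Agent.H20.ENM.MNG
import Pool.Agent.H79.EN.MN1
import Pool.Agent.H61.ENM.SCV
import Pool.Agent.H62.ENM.PHI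
import Pool.Agent.H62.ENM.LG1
import Pool.Agent.H35.EN.SCL
import Pool.Agent.H17.EN.LDQ
import Pool.Agent.H17.EN.LSH
import Pool.Agent.H17.EN.SBL
import Pool.Agent.H46.EN.SBG
import Pool.Agent.H88.ENM.CMP

/-!
# The energy is almost constant on the whole range of scales: composition
-/

set_option autoImplicit false

open Finset Pool.Agent.H6.N4D Pool.Agent.H93.EB

namespace Pool.Agent.H72.EN

theorem onef_of (h : Pool.Agent.H28.EN.T_ON2) : Pool.Agent.H78.N4.LEV.T_ONEF := by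
  obtain ⟨C, hC, h⟩ := h
  refine ⟨C, hC, fun lam q L J n η tV be al tW h1 h2 h3 h4 h5 h6 h7 h8 h9 h10 h11 => ?_⟩
  exact h lam q L J n η tV tW be al h1 h2 h3 h4 h5 h6 h7 h8 h9 h10 fun j hj => by
    obtain ⟨b, hb⟩ := h11 j hj
    exact ⟨b, hb.trans (le_of_eq (by rw [div_div]))⟩

section one

open Pool.Agent.H28.EN

theorem gre : T_GRE := Pool.Agent.H1.ENW.pf_GRE
theorem top : Pool.Agent.H28.EN.T_TOP := Pool.Agent.H23.EN.pf_TOP gre
theorem spl : T_SPL := Pool.Agent.H46.EN.pf_SPL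
theorem geo : T_GEO := Pool.Agent.H60.EN1.pf_GEO
theorem far : T_FAR := Pool.Agent.H88.EN.pf_FAR geo
theorem unf : T_UNF := Pool.Agent.H60.EN1.pf_UNF gre top spl
theorem pk1 : T_PK1 := Pool.Agent.H90.EN.pf_PK1 Pool.Agent.H69.EN.pf_MID unf
  Pool.Agent.H73.EN.pf_NDS
theorem pk2 : T_PK2 := Pool.Agent.H60.EN1.pf_PK2 unf Pool.Agent.H73.EN.pf_NDS geo
theorem cl2 : T_CL2 := Pool.Agent.H28.EN.pf_CL2 top Pool.Agent.H41.EN.pf_MQF far
  Pool.Agent.H5.EN.pf_SLO pk1 pk2 Pool.Agent.H23.EN.pf_DIF Pool.Agent.H38.EN.pf_TST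
  Pool.Agent.H90.EN.pf_PHI
theorem brk : T_BRK := Pool.Agent.H28.EN.pf_BRK top far
  Pool.Agent.H5.EN.pf_SLO pk1 pk2 Pool.Agent.H23.EN.pf_DIF Pool.Agent.H38.EN.pf_TST
  Pool.Agent.H90.EN.pf_PHI
theorem clb : T_CLB := Pool.Agent.H40.EN.pf_CLB gre top Pool.Agent.H41.EN.pf_MQF
  Pool.Agent.H90.EN.pf_PHI

/-- the inequality for one window and one prime -/
theorem on2 : T_ON2 := Pool.Agent.H51.EN1.pf_ON2 gre top spl cl2 clb brk

end one

section avg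

open Pool.Agent.H70.EN

theorem mat : T_MAT := Pool.Agent.H67.ENM.pf_MAT
theorem mbd : T_MBD := Pool.Agent.H67.ENM.pf_MBD mat
theorem cmp : T_CMP := Pool.Agent.H88.ENM.pf_CMP mat
theorem sbl : T_SBL := Pool.Agent.H17.EN.pf_SBL mat
theorem sbg : T_SBG := Pool.Agent.H46.EN.pf_SBG mbd cmp sbl
theorem phip : Pool.Agent.H70.EN.T_PHI := Pool.Agent.H62.ENM.pf_PHI
theorem scl : T_SCL := Pool.Agent.H35.EN.pf_SCL mat mbd
theorem lg1 : T_LG1 := Pool.Agent.H62.ENM.pf_LG1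
theorem lsh : T_LSH := Pool.Agent.H17.EN.pf_LSH lg1
theorem ldq : T_LDQ := Pool.Agent.H17.EN.D.pf_LDQ lg1
theorem qms : T_QMS := Pool.Agent.H20.ENM.pf_QMS
theorem mng : T_MNG := Pool.Agent.H20.ENM.pf_MNG mbd sbg lg1 lsh
theorem mn1 : T_MN1 := Pool.Agent.H79.EN.pf_MN1 mng phip
theorem scv : T_SCV := Pool.Agent.H61.ENM.pf_SCV mbd phip scl lg1 ldq
theorem sc1 : T_SC1 := Pool.Agent.H88.ENM.pf_SC1 mn1 scv
theorem sc2 : T_SC2 := Pool.Agent.H10.ENM.pf_SC2 mn1 scv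

end avg

/-- the inequality of one level -/
theorem lev : T_LEV := lev_of Pool.Agent.H38.EL.pf_BAB
  (Pool.Agent.H78.N4.LEV.pf_LEV (onef_of on2) mat mbd sc1 sc2 qms)

/-- EN from the inequality of Bessel -/
theorem en (hBES : Pool.Agent.H93.EB.T_BES) : T_EN := en_of hBES lev

end Pool.Agent.H72.EN
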