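import Pool.Agent.H72.EN.Targets4
import Pool.Agent.H72.EN.BAJ
import Pool.Agent.H67.ENM.MAT

/-!
# The largest sums of jump tests of one level at maximal frequencies
-/

set_option autoImplicit false

open Finset Pool.Agent.H6.N4D Pool.Agent.H93.EB Pool.Agent.H28.EN

namespace Pool.Agent.H72.EN

lemma lift_self (m : ℕ) (β : ℕ → ℕ → ℝ) : Lift m β β := by
  intro n q _
  refine ⟨0, ?_⟩
  have : β n q - β n q - ((0 : ℤ) : ℝ) / q = 0 := by simp
  rw [this]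
  have h0 : nd 0 = 0 := by simp [nd]
  rw [h0]
  positivity

lemma exists_MaxQ (lam : ℕ → ℝ) (m : ℕ) : ∃ β : ℕ → ℕ → ℝ, MaxQ lam m β := by
  choose β hβ using fun n q => (Pool.Agent.H67.ENM.pf_MAT lam q (2 ^ m) n).2.2.1
  exact ⟨β, fun n q _ => (hβ n q).2.2.symm⟩

theorem pf_BAK : T_BAK := by
  intro lam X m hl
  obtain ⟨a1, -, a3, -, a5, -⟩ := Pool.Agent.H38.EL.pf_BAB lam X m hl
  have hone : ∀ n, ∀ q ∈ QQ m, BV (2 ^ m) n ((fun _ _ _ => (1 : ℂ)) n q : ℕ → ℂ) :=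
    fun n q _ => Pool.Agent.H38.EL.BV_one _ n
  obtain ⟨β₀, hβ₀⟩ := exists_MaxQ lam m
  have bddB : BddAbove {x | ∃ β : ℕ → ℕ → ℝ, MaxQ lam m β ∧ ∀ α : ℕ → ℕ → ℝ, Lift m β α →
      x ≤ bj lam X m α} := by
    refine ⟨Pool.Agent.H38.EL.KB X m, ?_⟩
    rintro x ⟨β, -, hβ⟩
    exact ((hβ β (lift_self m β)).trans (bj_le_bv lam X m β)).trans
      (Pool.Agent.H38.EL.bv_le hl X m _ hone)
  have memB : (0 : ℝ) ∈ {x | ∃ β : ℕ → ℕ → ℝ, MaxQ lam m β ∧ ∀ α : ℕ → ℕ → ℝ, Lift m β α →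
      x ≤ bj lam X m α} := ⟨β₀, hβ₀, fun α _ => bj_nonneg _ _ _ _⟩
  refine ⟨a1, le_csSup bddB memB, a3, ?_, a5, ?_⟩
  · refine ⟨β₀, hβ₀, ?_⟩
    by_contra hc
    push Not at hc
    have : bK lam X m + 1 ≤ bK lam X m := le_csSup bddB ⟨β₀, hβ₀, fun α hα => (hc α hα).le⟩
    linarith
  · have hlt : bK lam X m - 1 < bK lam X m := by linarith
    obtain ⟨x, ⟨β, hm, hβ⟩, hx⟩ := exists_lt_of_lt_csSup ⟨0, memB⟩ hlt
    exact ⟨β, hm, fun α hα => by have := hβ α hα; linarith⟩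

theorem lev4_of (h : T_LV4) : T_LEV4 := by
  obtain ⟨C, m₁, hC, h⟩ := h
  refine ⟨4 * C, max m₁ 15, by positivity, le_max_right _ _, ?_⟩
  intro η A X m lam h0 h1 hA hX hm hlam
  have hl1 : ∀ n, |lam n| ≤ 1 := by
    intro n
    rcases hlam.pm n with h | h <;> rw [h] <;> norm_num
  have hY : 0 < Real.log X := by
    apply Real.log_pos
    have : (3 : ℝ) ≤ X := by exact_mod_cast hX
    linarith
  obtain ⟨a0, b0, hA1, ⟨β, hβ, α, hα, hα2⟩, -, -⟩ := pf_BAK lam X m hl1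
  obtain ⟨α', g, hg, hmain⟩ := h X m A lam η hX (le_trans (le_max_left _ _) hm) hA h0 h1 hlam
    β hβ α hα
  have ht : ∀ k, t lam X k * Real.log X = lg X (fun n => phi (M lam (2 ^ k) n)) := by
    intro k
    unfold t
    rw [div_mul_cancel₀ _ hY.ne']
  rw [sub_mul, sub_mul, ht, ht, ht, ht] at hmain
  refine hmain.trans ?_
  have hs : ∑ i ∈ range 4, bv lam X m (fun n _ => α' i n) (g i) ≤ 4 * bA lam X m := by
    have : ∀ i ∈ range 4, bv lam X m (fun n _ => α' i n) (g i) ≤ bA lam X m :=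
      fun i _ => hA1 (α' i) (g i) (hg i)
    refine (sum_le_card_nsmul _ _ _ this).trans (le_of_eq ?_)
    simp
  have hind : 0 ≤ lg X (fun n => ind (¬ Reg lam (2 ^ (m - 15)) n)) :=
    Pool.Agent.H38.EL.lg_nonneg fun n => ind_nonneg _
  have hD : 0 ≤ C / η := by positivity
  have hpow : 0 ≤ ((1 : ℝ) / 2) ^ (m / 2000) * Real.log X := by positivity
  have hAm : (0 : ℝ) ≤ (A : ℝ) * m := by positivity
  have e1 : 4 * C / η * (bA lam X m + bK lam X m +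
      lg X (fun n => ind (¬ Reg lam (2 ^ (m - 15)) n)) + (1 / 2) ^ (m / 2000) * Real.log X +
        A * m + 1) = C / η * (4 * (bA lam X m + bK lam X m +
      lg X (fun n => ind (¬ Reg lam (2 ^ (m - 15)) n)) + (1 / 2) ^ (m / 2000) * Real.log X +
        A * m + 1)) := by ring
  rw [e1]
  have e2 : ∑ i ∈ range 4, bv lam X m (fun n _ => α' i n) (g i) + bj lam X m α +
          lg X (fun n => ind (¬ Reg lam (2 ^ (m - 15)) n)) +
          (1 / 2) ^ (m / 2000) * Real.log X + A * m + 1 ≤ 4 * (bA lam X m + bK lam X m +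
      lg X (fun n => ind (¬ Reg lam (2 ^ (m - 15)) n)) + (1 / 2) ^ (m / 2000) * Real.log X +
        A * m + 1) := by linarith
  have := mul_le_mul_of_nonneg_left e2 hD
  linarith

end Pool.Agent.H72.EN
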