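import Pool.Agent.H72.EN.Targets
import Pool.Agent.H28.EN.Targets2
import Pool.Agent.H78.N4.LEVT

/-!
# From one level to all levels, with the jump test restricted to large correlations: statements

The jump test of the prime `q` is only needed if the correlation on the multiples of `q` is at
least `63 / 100`.
-/

set_option autoImplicit false

open Finset Pool.Agent.H6.N4D Pool.Agent.H93.EB Pool.Agent.H28.EN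

namespace Pool.Agent.H72.EN

/-- the jump test -/
noncomputable def zj (lam : ℕ → ℝ) (q N n : ℕ) (α : ℝ) : ℝ :=
  zz lam q N n α (fun _ => 1) ^ 2 * ind (63 / 100 ≤ Mq lam q N n)

/-- CL3. The upper bound on a window. -/
def T_CL3 : Prop := ∀ (lam : ℕ → ℝ) (q L n : ℕ) (θ φ β α : ℝ), (∀ m, |lam m| ≤ 1) →
  1 ≤ q → 1 ≤ L → 100 * q ≤ 2 ^ 15 * L →
  Top lam (2 ^ 15 * L) n θ φ → G lam (2 ^ 15 * L) n θ φ = M lam (2 ^ 15 * L) n →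
  ‖crq lam q (2 ^ 15 * L) n β‖ = Mq lam q (2 ^ 15 * L) n →
  (∃ b : ℤ, nd (α - β - (b : ℝ) / q) ≤ 1 / (10 ^ 4 * ((2 ^ 15 * L : ℕ) : ℝ))) →
  ∃ g : ℕ → ℂ, BV (2 ^ 15 * L) n g ∧
    phi (Mq lam q (2 ^ 15 * L) n) ≤ phi (M lam (2 ^ 15 * L) n) +
      dph (M lam (2 ^ 15 * L) n) * G (dq lam q) (2 ^ 15 * L) n θ φ +
      10 ^ 10 * (zz lam q (2 ^ 15 * L) n θ (fun _ => 1) ^ 2 +
        zj lam q (2 ^ 15 * L) n α +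
        zz lam q (2 ^ 15 * L) n θ g ^ 2 + ind (¬ Reg lam L n))

/-- ON3. The main inequality for one window and one prime number, with given maximal frequencies
and given lifts. -/
def T_ON3 : Prop := ∃ C : ℝ, 0 < C ∧ ∀ (lam : ℕ → ℝ) (q L J n : ℕ) (η : ℝ) (tV : ℕ → ℝ)
  (tW : ℝ) (be al : ℕ → ℝ),
  (∀ m, |lam m| ≤ 1) → 0 < η → η ≤ 1 → 1 ≤ q → 1 ≤ L → 1 ≤ J → 100 * q ≤ 2 ^ 15 * L →
  (∀ j < J, ‖cr lam (2 ^ 15 * L) (n + j * (2 ^ 15 * L)) (tV j)‖ =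
    M lam (2 ^ 15 * L) (n + j * (2 ^ 15 * L))) →
  ‖cr lam (J * (2 ^ 15 * L)) n tW‖ = M lam (J * (2 ^ 15 * L)) n →
  (∀ j < J, ‖crq lam q (2 ^ 15 * L) (n + j * (2 ^ 15 * L)) (be j)‖ =
    Mq lam q (2 ^ 15 * L) (n + j * (2 ^ 15 * L))) →
  (∀ j < J, ∃ b : ℤ,
    nd (al j - be j - (b : ℝ) / q) ≤ 1 / (10 ^ 4 * ((2 ^ 15 * L : ℕ) : ℝ))) →
  ∃ g : ℕ → ℕ → ℕ → ℂ, (∀ j i, BV (2 ^ 15 * L) (n + j * (2 ^ 15 * L)) (g j i)) ∧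
    (∑ j ∈ range J, phi (Mq lam q (2 ^ 15 * L) (n + j * (2 ^ 15 * L)))) / J -
        phi (Mq lam q (J * (2 ^ 15 * L)) n) ≤
      (1 + η) * ((∑ j ∈ range J, phi (M lam (2 ^ 15 * L) (n + j * (2 ^ 15 * L)))) / J -
        phi (M lam (J * (2 ^ 15 * L)) n)) +
      C / η * ((∑ j ∈ range J,
        (zz lam q (2 ^ 15 * L) (n + j * (2 ^ 15 * L)) (tV j) (fun _ => 1) ^ 2 +
          zz lam q (2 ^ 15 * L) (n + j * (2 ^ 15 * L)) (tV j) (g j 0) ^ 2 +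
          zz lam q (2 ^ 15 * L) (n + j * (2 ^ 15 * L)) (tV j) (g j 1) ^ 2 +
          zz lam q (2 ^ 15 * L) (n + j * (2 ^ 15 * L)) tW (fun _ => 1) ^ 2 +
          zj lam q (2 ^ 15 * L) (n + j * (2 ^ 15 * L)) (al j) +
          ind (¬ Reg lam L (n + j * (2 ^ 15 * L))))) / J)

/-- the sum of the jump tests of the level `m` -/
noncomputable def bj (lam : ℕ → ℝ) (X m : ℕ) (α : ℕ → ℕ → ℝ) : ℝ :=
  lg X (fun n => ∑ q ∈ QQ m, 1 / (q : ℝ) * zj lam q (2 ^ m) n (α n q))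

/-- LV3. The inequality for one level, with given frequencies and lifts. -/
def T_LV3 : Prop := ∃ (C : ℝ) (m₁ : ℕ), 0 < C ∧ ∀ (X m A : ℕ) (lam : ℕ → ℝ) (η : ℝ),
  3 ≤ X → m₁ ≤ m → 2 ≤ A → 0 < η → η ≤ 1 → Lio lam →
  ∃ β : ℕ → ℕ → ℝ, ∀ α : ℕ → ℕ → ℝ, Lift m β α →
    ∃ (α' : ℕ → ℕ → ℝ) (g : ℕ → ℕ → ℕ → ℕ → ℂ),
      (∀ i n, ∀ q ∈ QQ m, BV (2 ^ m) n (g i n q)) ∧
      (t lam X (m - m / 500) - t lam X (A * m - m / 100)) * Real.log X ≤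
        (1 + η) * ((t lam X m - t lam X (A * m)) * Real.log X) +
        C / η * ((∑ i ∈ range 4, bv lam X m (fun n _ => α' i n) (g i)) + bj lam X m α +
          lg X (fun n => ind (¬ Reg lam (2 ^ (m - 15)) n)) +
          (1 / 2) ^ (m / 2000) * Real.log X + A * m + 1)

/-- the largest sum of jump tests with the best lifts of given frequencies -/
noncomputable def bJ (lam : ℕ → ℝ) (X m : ℕ) : ℝ :=
  sSup {x | ∃ β : ℕ → ℕ → ℝ, ∀ α : ℕ → ℕ → ℝ, Lift m β α → x ≤ bj lam X m α}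

/-- BAJ. Use of `bA` and `bJ`. -/
def T_BAJ : Prop := ∀ (lam : ℕ → ℝ) (X m : ℕ), (∀ n, |lam n| ≤ 1) →
  0 ≤ bA lam X m ∧ 0 ≤ bJ lam X m ∧
  (∀ (α : ℕ → ℝ) (g : ℕ → ℕ → ℕ → ℂ), (∀ n, ∀ q ∈ QQ m, BV (2 ^ m) n (g n q)) →
    bv lam X m (fun n _ => α n) g ≤ bA lam X m) ∧
  (∀ β : ℕ → ℕ → ℝ, ∃ α : ℕ → ℕ → ℝ, Lift m β α ∧ bj lam X m α ≤ bJ lam X m + 1) ∧
  (∃ (α : ℕ → ℝ) (g : ℕ → ℕ → ℕ → ℂ), (∀ n, ∀ q ∈ QQ m, BV (2 ^ m) n (g n q)) ∧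
    bA lam X m ≤ bv lam X m (fun n _ => α n) g + 1) ∧
  ∃ β : ℕ → ℕ → ℝ, ∀ α : ℕ → ℕ → ℝ, Lift m β α → bJ lam X m ≤ bj lam X m α + 1

/-- LEV3. The inequality of one level. -/
def T_LEV3 : Prop := ∃ (C : ℝ) (m₁ : ℕ), 0 < C ∧ 15 ≤ m₁ ∧
  ∀ (η : ℝ) (A X m : ℕ) (lam : ℕ → ℝ), 0 < η → η ≤ 1 → 2 ≤ A → 3 ≤ X → m₁ ≤ m → Lio lam →
    lg X (fun n => phi (M lam (2 ^ (m - m / 500)) n)) -
        lg X (fun n => phi (M lam (2 ^ (A * m - m / 100)) n)) ≤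
      (1 + η) * (lg X (fun n => phi (M lam (2 ^ m) n)) -
        lg X (fun n => phi (M lam (2 ^ (A * m)) n))) +
      C / η * (bA lam X m + bJ lam X m + lg X (fun n => ind (¬ Reg lam (2 ^ (m - 15)) n)) +
        (1 / 2) ^ (m / 2000) * Real.log X + A * m + 1)

/-- BES3. The inequality of Bessel for all levels, from a base of bounded scale, for functions
with values `±1` and levels up to `log log X`. -/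
def T_BES3 : Prop := ∃ B : ℕ, 1 ≤ B ∧ ∀ ε : ℝ, 0 < ε → ∃ e : ℝ, 0 < e ∧ ∀ R : ℕ,
  ∃ s₀ : ℕ, ∀ s, s₀ ≤ s → ∃ X₀ : ℕ, ∀ (X K k₁ : ℕ) (lam : ℕ → ℝ) (m : ℕ → ℕ),
    X₀ ≤ X → (∀ n, lam n = 1 ∨ lam n = -1) → Base lam R (2 ^ s) e X →
    B * s ≤ m 0 → (∀ i, i + 1 < K → B * m i ≤ m (i + 1)) → (∀ i < K, m i ≤ k₁) →
    (4 : ℝ) ^ k₁ ≤ Real.log X →
    (∀ (α : ℕ → ℕ → ℝ) (g : ℕ → ℕ → ℕ → ℕ → ℂ),
      (∀ i < K, ∀ n, ∀ q ∈ QQ (m i), BV (2 ^ m i) n (g i n q)) →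
      besSum lam X K m (fun i n _ => α i n) g ≤ ε * Real.log X) ∧
    (∀ β : ℕ → ℕ → ℕ → ℝ, ∃ α : ℕ → ℕ → ℕ → ℝ, (∀ i < K, Lift (m i) (β i) (α i)) ∧
      ∑ i ∈ range K, bj lam X (m i) (α i) ≤ ε * Real.log X)

/-- EN3. The energy is almost constant from a bounded scale up to a power of `log X`. -/
def T_EN3 : Prop := ∃ B : ℕ, 1 ≤ B ∧ ∀ ε : ℝ, 0 < ε → ∃ e : ℝ, 0 < e ∧ ∀ R : ℕ,
  ∃ s₀ : ℕ, ∀ s, s₀ ≤ s → ∃ X₀ : ℕ, ∀ (X : ℕ) (lam : ℕ → ℝ), X₀ ≤ X → Lio lam →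
    Base lam R (2 ^ s) e X → ∀ k₀ k : ℕ, B * s ≤ k₀ → k₀ ≤ k → (16 : ℝ) ^ k ≤ Real.log X →
      t lam X k₀ - ε ≤ t lam X k

end Pool.Agent.H72.EN
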