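import Pool.Agent.H65.EN.Targets
import Pool.Agent.H31.LV.Basic

/-!
# Row ABN of the board enx (MP_e21eee_nt): denominators with many divisors
-/

set_option autoImplicit false

open Finset MeasureTheory
open Pool.Agent.H24.CL Pool.Agent.H24.LV Pool.Agent.H31.LV Pool.Agent.H50.LV Pool.Agent.H65.EN

namespace Pool.Agent.H72.EN

lemma norm_GF_le {k : ℕ} (q : ℕ) (f : Fin k → ℤ) (h : ℕ) (hq : 1 ≤ q) : ‖GF q f h‖ ≤ 1 := by
  have hq0 : (0 : ℝ) < q := by exact_mod_cast hq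
  unfold GF
  rw [norm_mul, norm_div, norm_one, Complex.norm_natCast]
  have h1 : ‖∑ z ∈ range q, ee (((Fz f ((z : ℤ) + h) - Fz f (z : ℤ) : ℤ) : ℝ) / q)‖ ≤ q := by
    refine (norm_sum_le _ _).trans ?_
    simp only [norm_ee]
    simp
  calc 1 / (q : ℝ) * _ ≤ 1 / (q : ℝ) * q := mul_le_mul_of_nonneg_left h1 (by positivity)
    _ = 1 := by field_simp

/-- the points of a small cell -/
lemma cell (h1 : T_EXV) (h2 : T_KLI) {k N q : ℕ} {M' : ℝ} (hk : 1 ≤ k) (hN : 1 ≤ N)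
    (hM : 1 ≤ M') (hMN : 8 * M' ≤ N) (f c : Fin k → ℤ) (hq : 1 ≤ q)
    (η : Fin k → ℝ) (τ ξ : ℝ) (hη : ∀ i : Fin k, i.val ≠ 0 → |η i * (N : ℝ) ^ (i.val + 1) -
      c i / ((32 * k * N : ℕ) : ℝ)| ≤ 1 / ((32 * k * N : ℕ) : ℝ)) (hτ : -1 ≤ τ) (hτ' : τ ≤ 0)
    (hV : 1 / M' ≤ VF q f N η τ ξ) : (ξ : UnitAddCircle) ∈ SB q N (32 * k * N) f c := by
  have hN0 : (0 : ℝ) < N := by exact_mod_cast hN
  have hk0 : (0 : ℝ) < k := by exact_mod_cast hk
  have hM0 : (0 : ℝ) < M' := by linarith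
  have e1 := h1 k q N f η τ ξ hq hN
  have hM₁ : (0 : ℝ) < ((32 * k * N : ℕ) : ℝ) := by
    have : 0 < 32 * k * N := by positivity
    exact_mod_cast this
  have e2 : (8 : ℝ) ≤ (N : ℝ) * VF q f N η τ ξ := by
    calc (8 : ℝ) ≤ N * (1 / M') := by
          rw [mul_one_div, le_div_iff₀ hM0]; exact hMN
      _ ≤ _ := mul_le_mul_of_nonneg_left hV hN0.le
  have hec : ∀ i : Fin k, ec N (32 * k * N) c i * (N : ℝ) ^ (i.val + 1) =
      c i / ((32 * k * N : ℕ) : ℝ) := by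
    intro i
    unfold ec
    have h3 : (N : ℝ) ^ (i.val + 1) ≠ 0 := by positivity
    rw [div_mul_eq_mul_div, mul_div_mul_right _ _ h3]
  have e3 : ∀ h ∈ Ico 1 N, ‖(GF q f h * KP N η τ h) * ee (ξ * h) -
      (GF q f h * KP N (ec N (32 * k * N) c) 0 h) * ee (ξ * h)‖ ≤ (5 / 2) / (N : ℝ) := by
    intro h hh
    rw [mem_Ico] at hh
    have h3 := h2 k N h η (ec N (32 * k * N) c) τ (1 / ((32 * k * N : ℕ) : ℝ)) hN hh.2.le hτ hτ'
      (by positivity) (fun i hi => by rw [hec]; exact hη i hi)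
    rw [← sub_mul, ← mul_sub, norm_mul, norm_ee, mul_one, norm_mul]
    calc ‖GF q f h‖ * ‖KP N η τ h - KP N (ec N (32 * k * N) c) 0 h‖ ≤
        1 * (2 / N + 16 * k * (1 / ((32 * k * N : ℕ) : ℝ))) :=
          mul_le_mul (norm_GF_le q f h hq) h3 (norm_nonneg _) (by norm_num)
      _ = (5 / 2) / (N : ℝ) := by
          push_cast
          field_simp
          norm_num
  have e4 : ‖∑ h ∈ Ico 1 N, (GF q f h * KP N η τ h) * ee (ξ * h) -
      ∑ h ∈ Ico 1 N, (GF q f h * KP N (ec N (32 * k * N) c) 0 h) * ee (ξ * h)‖ ≤ 5 / 2 := by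
    rw [← sum_sub_distrib]
    refine (norm_sum_le _ _).trans ((sum_le_sum e3).trans ?_)
    rw [sum_const, Nat.card_Ico, nsmul_eq_mul]
    calc ((N - 1 : ℕ) : ℝ) * ((5 / 2) / (N : ℝ)) ≤ N * ((5 / 2) / (N : ℝ)) := by
          apply mul_le_mul_of_nonneg_right _ (by positivity)
          exact_mod_cast Nat.sub_le _ _
      _ = 5 / 2 := by field_simp
  have e5 := norm_sub_norm_le (∑ h ∈ Ico 1 N, (GF q f h * KP N η τ h) * ee (ξ * h))
    (∑ h ∈ Ico 1 N, (GF q f h * KP N (ec N (32 * k * N) c) 0 h) * ee (ξ * h))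
  have e6 : 1 ≤ ‖∑ h ∈ Ico 1 N, (GF q f h * KP N (ec N (32 * k * N) c) 0 h) * ee (ξ * h)‖ := by
    linarith
  unfold SB
  rw [Set.mem_setOf_eq]
  have e7 : ∀ h : ℕ, e (h • (ξ : UnitAddCircle)) = ee (ξ * h) := by
    intro h
    have : h • (ξ : UnitAddCircle) = ((ξ * h : ℝ) : UnitAddCircle) := by
      rw [← AddCircle.coe_nsmul]
      congr 1
      rw [nsmul_eq_mul]
      ring
    rw [this, e_coe]
  simp only [e7]
  exact e6

theorem pf_ABN (h1 : T_EXV) (h2 : T_KLI) (h3 : T_COX) (h4 : T_BXX) (h5 : T_ABQ) (h6 : T_DSM) :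
    T_ABN := by
  classical
  intro k hk A
  obtain ⟨C₁, s₂, hC₁, h5⟩ := h5 k hk
  refine ⟨C₁, KN k + 2 ^ (s₂ + A), hC₁, ?_⟩
  intro N R M' Y hN hR hM hY hMN
  have hN0 : (0 : ℝ) < N := by exact_mod_cast hN
  have hN1 : (1 : ℝ) ≤ N := by exact_mod_cast hN
  have hR0 : 0 < R := by linarith
  have hY0 : 0 < Y := by linarith
  obtain ⟨M₁, hM₁⟩ : ∃ M₁ : ℕ, M₁ = 32 * k * N := ⟨_, rfl⟩
  have hM₁1 : 1 ≤ M₁ := by
    rw [hM₁]
    have : 0 < 32 * k * N := by positivity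
    omega
  have hM₁0 : (0 : ℝ) < M₁ := by exact_mod_cast hM₁1
  have hcov := h3 k N M₁ R M' {q | Y < (tau q : ℝ)} (fun q f c => SB q N M₁ f c) hN hM₁1 hR
    (fun q f c _ hq _ _ η τ ξ hη hτ hτ' hV => by
      rw [hM₁] at hη ⊢
      exact cell h1 h2 (by omega) hN hM hMN f c hq η τ ξ hη hτ hτ' hV)
  have hK1 : 1 ≤ KN k := by
    unfold KN
    have : 2 ≤ k * (k + 1) := by nlinarith
    omega
  have hNK : (N : ℝ) ^ (KN k) = N ^ (KN k - 1) * N := by
    rw [← pow_succ]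
    congr 1
    omega
  obtain ⟨D, hD⟩ : ∃ D : ℕ, D = M₁ * (⌈R⌉₊ + 1) := ⟨_, rfl⟩
  rw [← hD] at hcov
  obtain ⟨L, hL⟩ : ∃ L : ℝ, L = (1 + Real.log N) ^ (KN k) := ⟨_, rfl⟩
  have hlN : 0 ≤ Real.log N := Real.log_nonneg hN1
  have hlR : 0 ≤ Real.log R := Real.log_nonneg hR
  have hL0 : 0 ≤ L := by rw [hL]; positivity
  -- one denominator
  have hq1 : ∀ q ∈ Icc 1 ⌊R⌋₊, (volume : Measure (X k)).real (⋃ f ∈ Fq k q, ⋃ c ∈ Dc k D,
      Set.pi Set.univ (BxM M₁ N q f c {y | q ∈ {q | Y < (tau q : ℝ)} ∧ Prim q f ∧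
        y ∈ SB q N M₁ f c})) ≤
      if Y < (tau q : ℝ) then C₁ * L * ((tau q : ℝ) ^ s₂ / q) else 0 := by
    intro q hq
    rw [mem_Icc] at hq
    have hbox : ∀ f c, (volume : Measure (X k)).real (Set.pi Set.univ (BxM M₁ N q f c
        {y | q ∈ {q | Y < (tau q : ℝ)} ∧ Prim q f ∧ y ∈ SB q N M₁ f c})) ≤
        if Y < (tau q : ℝ) ∧ Prim q f then
          volume.real (SB q N M₁ f c) * (N / ((N : ℝ) ^ (KN k) * (M₁ : ℝ) ^ (k - 1))) else 0 := by
      intro f c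
      refine (h4 k N M₁ q f c _ (by omega) hN hM₁1).trans ?_
      by_cases hc : Y < (tau q : ℝ) ∧ Prim q f
      · rw [if_pos hc]
        have e : {y | q ∈ {q | Y < (tau q : ℝ)} ∧ Prim q f ∧ y ∈ SB q N M₁ f c} =
            SB q N M₁ f c := by
          ext y
          simp only [Set.mem_setOf_eq, hc.1, hc.2, true_and]
        rw [e, mul_div_assoc]
      · rw [if_neg hc]
        have e : {y | q ∈ {q | Y < (tau q : ℝ)} ∧ Prim q f ∧ y ∈ SB q N M₁ f c} =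
            (∅ : Set UnitAddCircle) := by
          ext y
          simp only [Set.mem_setOf_eq, Set.mem_empty_iff_false, iff_false]
          exact fun h => hc ⟨h.1, h.2.1⟩
        rw [e]
        simp
    have hsum : (volume : Measure (X k)).real (⋃ f ∈ Fq k q, ⋃ c ∈ Dc k D,
        Set.pi Set.univ (BxM M₁ N q f c {y | q ∈ {q | Y < (tau q : ℝ)} ∧ Prim q f ∧
          y ∈ SB q N M₁ f c})) ≤ ∑ f ∈ Fq k q, ∑ c ∈ Dc k D,
        if Y < (tau q : ℝ) ∧ Prim q f then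
          volume.real (SB q N M₁ f c) * (N / ((N : ℝ) ^ (KN k) * (M₁ : ℝ) ^ (k - 1))) else 0 := by
      refine (measureReal_biUnion_finset_le _ _).trans ?_
      refine sum_le_sum fun f _ => ?_
      refine (measureReal_biUnion_finset_le _ _).trans ?_
      exact sum_le_sum fun c _ => hbox f c
    refine hsum.trans ?_
    by_cases hc : Y < (tau q : ℝ)
    · rw [if_pos hc]
      have e : ∀ f ∈ Fq k q, (∑ c ∈ Dc k D, if Y < (tau q : ℝ) ∧ Prim q f then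
          volume.real (SB q N M₁ f c) * (N / ((N : ℝ) ^ (KN k) * (M₁ : ℝ) ^ (k - 1))) else 0) =
          if Prim q f then (∑ c ∈ Dc k D, volume.real (SB q N M₁ f c)) *
            (N / ((N : ℝ) ^ (KN k) * (M₁ : ℝ) ^ (k - 1))) else 0 := by
        intro f _
        by_cases hp : Prim q f
        · rw [if_pos hp, sum_mul]
          apply sum_congr rfl
          intro c _
          rw [if_pos ⟨hc, hp⟩]
        · rw [if_neg hp]
          apply sum_eq_zero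
          intro c _
          rw [if_neg fun h => hp h.2]
      rw [sum_congr rfl e, ← sum_filter, ← sum_mul]
      have h7 := h5 N M₁ q D hN hM₁1 hq.1
      have h8 : (0 : ℝ) ≤ N / ((N : ℝ) ^ (KN k) * (M₁ : ℝ) ^ (k - 1)) := by positivity
      refine (mul_le_mul_of_nonneg_right h7 h8).trans (le_of_eq ?_)
      rw [hNK, hL]
      have h9 : (N : ℝ) ^ (KN k - 1) ≠ 0 := by positivity
      have h10 : (M₁ : ℝ) ^ (k - 1) ≠ 0 := by positivity
      have h11 : (N : ℝ) ≠ 0 := hN0.ne'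
      field_simp
    · rw [if_neg hc]
      apply le_of_eq
      apply sum_eq_zero
      intro f _
      apply sum_eq_zero
      intro c _
      rw [if_neg fun h => hc h.1]
  have hvol : volume.real (WQ k N R M' {q | Y < (tau q : ℝ)}) ≤
      ∑ q ∈ Icc 1 ⌊R⌋₊, if Y < (tau q : ℝ) then C₁ * L * ((tau q : ℝ) ^ s₂ / q) else 0 := by
    refine (measureReal_mono hcov (measure_ne_top _ _)).trans ?_
    refine (measureReal_biUnion_finset_le _ _).trans ?_
    exact sum_le_sum fun q hq => hq1 q hq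
  refine hvol.trans ?_
  rw [← sum_filter, ← mul_sum]
  have hQ1 : 1 ≤ ⌊R⌋₊ := (Nat.one_le_floor_iff R).2 hR
  have h7 := h6 s₂ A ⌊R⌋₊ Y hQ1 hY
  have h8 : (1 + Real.log (⌊R⌋₊ : ℝ)) ≤ 1 + Real.log R := by
    have : Real.log (⌊R⌋₊ : ℝ) ≤ Real.log R :=
      Real.log_le_log (by exact_mod_cast hQ1) (Nat.floor_le hR0.le)
    linarith
  have h9 : 0 ≤ Real.log (⌊R⌋₊ : ℝ) := Real.log_nonneg (by exact_mod_cast hQ1)
  have h10 : (1 + Real.log (⌊R⌋₊ : ℝ)) ^ (2 ^ (s₂ + A)) ≤ (1 + Real.log R) ^ (2 ^ (s₂ + A)) :=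
    pow_le_pow_left₀ (by linarith) h8 _
  have hC₁0 : 0 ≤ C₁ := by linarith
  calc C₁ * L * ∑ q ∈ (Icc 1 ⌊R⌋₊).filter (fun q => Y < (tau q : ℝ)), (tau q : ℝ) ^ s₂ / q
      ≤ C₁ * L * ((1 + Real.log (⌊R⌋₊ : ℝ)) ^ (2 ^ (s₂ + A)) / Y ^ A) :=
        mul_le_mul_of_nonneg_left h7 (by positivity)
    _ ≤ C₁ * L * ((1 + Real.log R) ^ (2 ^ (s₂ + A)) / Y ^ A) := by
        apply mul_le_mul_of_nonneg_left _ (by positivity)
        exact div_le_div_of_nonneg_right h10 (by positivity)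
    _ = C₁ * ((1 + Real.log N) ^ (KN k) * (1 + Real.log R) ^ (2 ^ (s₂ + A))) / Y ^ A := by
        rw [hL]; ring
    _ ≤ C₁ * ((1 + Real.log N) ^ (KN k + 2 ^ (s₂ + A)) *
          (1 + Real.log R) ^ (KN k + 2 ^ (s₂ + A))) / Y ^ A := by
        apply div_le_div_of_nonneg_right _ (by positivity)
        apply mul_le_mul_of_nonneg_left _ hC₁0
        apply mul_le_mul _ _ (by positivity) (by positivity)
        · exact pow_le_pow_right₀ (by linarith) (Nat.le_add_right _ _)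
        · exact pow_le_pow_right₀ (by linarith) (Nat.le_add_left _ _)
    _ = C₁ * ((1 + Real.log N) * (1 + Real.log R)) ^ (KN k + 2 ^ (s₂ + A)) / Y ^ A := by
        rw [mul_pow]

end Pool.Agent.H72.EN
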