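import Pool.Agent.H72.EN.EN3
import Pool.Agent.H72.EN.All

/-!
# The energy is almost constant from a bounded scale up to a power of the logarithm: composition
-/

set_option autoImplicit false

open Finset Pool.Agent.H6.N4D Pool.Agent.H93.EB Pool.Agent.H28.EN

namespace Pool.Agent.H72.EN

/-- EN3 from the inequality of Bessel and the inequality of one level -/
theorem en3_of (hBES : T_BES3) (hLV : T_LV3) : T_EN3 :=
  pf_EN3 tel Pool.Agent.H62.ENL.pf_KCH pf_HAR' Pool.Agent.H35.ENL.pf_GSM
    pf_LIM' Pool.Agent.H67.ENL.pf_MN2 Pool.Agent.H46.ENL.pf_FAI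
    Pool.Agent.H91.ENL.pf_TBD pf_BAJ hBES (lev3_of hLV)

end Pool.Agent.H72.EN
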