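import Pool.Agent.H72.EN.EN
import Pool.Agent.H72.EN.BAJ

/-!
# The energy is almost constant from a bounded scale up to a power of the logarithm
-/

set_option autoImplicit false

open Finset Pool.Agent.H6.N4D Pool.Agent.H93.EB Pool.Agent.H28.EN

namespace Pool.Agent.H72.EN

/-- the telescope for the energies -/
lemma coreG (hTEL : T_TEL) (hHAR : T_HAR) (hGSM : T_GSM) (hTBD : T_TBD)
    {CL CM CF : ℝ} {m₁ : ℕ} (hCL : 0 < CL) (hCM : 0 < CM) (hCF : 0 < CF)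
    (bt : (ℕ → ℝ) → ℕ → ℕ → ℝ) (hbt : ∀ lam X m, (∀ n, |lam n| ≤ 1) → 0 ≤ bt lam X m)
    (hlev : ∀ (η : ℝ) (A X m : ℕ) (lam : ℕ → ℝ), 0 < η → η ≤ 1 → 2 ≤ A → 3 ≤ X → m₁ ≤ m →
      Lio lam →
      lg X (fun n => phi (M lam (2 ^ (m - m / 500)) n)) -
          lg X (fun n => phi (M lam (2 ^ (A * m - m / 100)) n)) ≤
        (1 + η) * (lg X (fun n => phi (M lam (2 ^ m) n)) -
          lg X (fun n => phi (M lam (2 ^ (A * m)) n))) +
        CL / η * (bt lam X m + lg X (fun n => ind (¬ Reg lam (2 ^ (m - 15)) n)) +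
          (1 / 2) ^ (m / 2000) * Real.log X + A * m + 1))
    (hmn : ∀ (X k l : ℕ) (lam : ℕ → ℝ), 3 ≤ X → (∀ n, |lam n| ≤ 1) → k ≤ l →
      lg X (fun n => phi (M lam (2 ^ l) n)) ≤
        lg X (fun n => phi (M lam (2 ^ k) n)) + CM * (l + 1) ∧
      lg X (fun n => M lam (2 ^ l) n ^ 2) ≤ lg X (fun n => M lam (2 ^ k) n ^ 2) + CM * (l + 1))
    (hfai : ∀ (X m : ℕ) (lam : ℕ → ℝ), 3 ≤ X → (∀ n, |lam n| ≤ 1) → 15 ≤ m →
      lg X (fun n => ind (¬ Reg lam (2 ^ (m - 15)) n)) ≤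
        10 ^ 8 * (lg X (fun n => M lam (2 ^ (m - 15)) n ^ 2) -
          lg X (fun n => M lam (2 ^ m) n ^ 2)) + CF * (m + 1))
    (lam : ℕ → ℝ) (X A B k₀ k : ℕ) (η E : ℝ) (hX : 3 ≤ X) (hlam : Lio lam) (hA : 2 ≤ A)
    (hB : 2 ≤ B) (h0 : 0 < η) (h1 : η ≤ 1) (hk1 : 3500 ≤ k₀) (hk2 : 100 * A ≤ k₀)
    (hk3 : m₁ ≤ k₀) (hk4 : k₀ ≤ k)
    (hE : ∀ (K : ℕ) (c : ℕ → ℕ), Chn B k₀ (2 * k) K c →
      ∑ i ∈ range K, bt lam X (c i) ≤ E * Real.log X) :
    t lam X k₀ - t lam X k ≤ 24 / A + 600 * η * A + 1200 * B * (CL / η * E) +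
      18000 * (CL / η * 10 ^ 8) / k₀ +
      600 * (CL / η * (4000 * (1 / 2) ^ (k₀ / 2000) +
        (2 * k : ℕ) * (2 * CF + A + 1) / Real.log X)) +
      600 * (3 + CL / η * 10 ^ 8) * (CM * ((A * (2 * k) : ℕ) + 1) / Real.log X) *
        (2 + Real.log (2 * k : ℕ)) + CM * ((A * (2 * k) : ℕ) + 1) / Real.log X := by
  have hl1 : ∀ n, |lam n| ≤ 1 := by
    intro n
    rcases hlam.pm n with h | h <;> rw [h] <;> norm_num
  have hY : 0 < Real.log X := by
    apply Real.log_pos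
    have : (3 : ℝ) ≤ X := by exact_mod_cast hX
    linarith
  set Y := Real.log X with hYd
  set D := CL / η with hDd
  have hD : 0 < D := div_pos hCL h0
  set me := 2 * k with hme
  set δ : ℝ := CM * ((A * me : ℕ) + 1) / Y with hδd
  have hδ : 0 ≤ δ := by positivity
  -- monotonicity
  have hmono : ∀ i j, i ≤ j → j ≤ A * me → t lam X j ≤ t lam X i + δ ∧
      t2 lam X j ≤ t2 lam X i + δ := by
    intro i j hij hj
    obtain ⟨a1, a2⟩ := hmn X i j lam hX hl1 hij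
    have hj' : (j : ℝ) ≤ (A * me : ℕ) := by exact_mod_cast hj
    have a3 : CM * ((j : ℝ) + 1) ≤ CM * ((A * me : ℕ) + 1) := by gcongr
    constructor
    · unfold t
      rw [hδd, ← add_div]
      exact div_le_div_of_nonneg_right (by linarith) hY.le
    · unfold t2
      rw [hδd, ← add_div]
      exact div_le_div_of_nonneg_right (by linarith) hY.le
  have hme1 : 1 ≤ me := by omega
  have hkk : k ≤ me - me / 500 := by omega
  have hT := hTEL A B k₀ me η (D * 10 ^ 8) δ (D * E) (fun k => t lam X k) (fun k => t2 lam X k)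
    (fun m => D * ((bt lam X m) / Y))
    (fun m => D * (CF * (m + 1) / Y + (1 / 2) ^ (m / 2000) + (A * m + 1) / Y))
    hA hB hk1 hk2 (by omega) h0.le h1 (by positivity) hδ
    (fun k => ⟨(hTBD X k lam hX hl1).1, (hTBD X k lam hX hl1).2.1⟩)
    (fun k => (hTBD X k lam hX hl1).2.2) hmono
    (fun m => by
      have := hbt lam X m hl1
      positivity)
    (fun K c hc => by
      have h2 := hE K c hc
      rw [← mul_sum]
      refine mul_le_mul_of_nonneg_left ?_ hD.le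
      rw [← sum_div, div_le_iff₀ hY]
      exact h2)
    (fun m hm => by
      rw [mem_Icc] at hm
      have b1 := hlev η A X m lam h0 h1 hA hX (by omega) hlam
      have b2 := hfai X m lam hX hl1 (by omega)
      have b3 := mul_le_mul_of_nonneg_left b2 hD.le
      unfold t t2
      rw [← hYd]
      set P1 := lg X (fun n => phi (M lam (2 ^ (m - m / 500)) n))
      set P2 := lg X (fun n => phi (M lam (2 ^ (A * m - m / 100)) n))
      set P3 := lg X (fun n => phi (M lam (2 ^ m) n))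
      set P4 := lg X (fun n => phi (M lam (2 ^ (A * m)) n))
      set Q1 := lg X (fun n => M lam (2 ^ (m - 15)) n ^ 2)
      set Q2 := lg X (fun n => M lam (2 ^ m) n ^ 2)
      set I := lg X (fun n => ind (¬ Reg lam (2 ^ (m - 15)) n))
      have b4 : P1 - P2 ≤ (1 + η) * (P3 - P4) + D * (bt lam X m) +
          D * (10 ^ 8 * (Q1 - Q2) + CF * (m + 1)) + D * ((1 / 2) ^ (m / 2000) * Y) +
          D * (A * m + 1) := by
        have : D * (bt lam X m + I + (1 / 2) ^ (m / 2000) * Y + A * m + 1) =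
          D * (bt lam X m) + D * I + D * ((1 / 2) ^ (m / 2000) * Y) +
            D * (A * m + 1) := by ring
        rw [this] at b1
        linarith
      have b5 := div_le_div_of_nonneg_right b4 hY.le
      have e1 : (P1 - P2) / Y = P1 / Y - P2 / Y := by ring
      have e2 : ((1 + η) * (P3 - P4) + D * (bt lam X m) +
          D * (10 ^ 8 * (Q1 - Q2) + CF * (m + 1)) + D * ((1 / 2) ^ (m / 2000) * Y) +
          D * (A * m + 1)) / Y = (1 + η) * (P3 / Y - P4 / Y) +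
          D * ((bt lam X m) / Y) + D * 10 ^ 8 * (Q1 / Y - Q2 / Y) +
          D * (CF * (m + 1) / Y + (1 / 2) ^ (m / 2000) + (A * m + 1) / Y) := by
        field_simp
        ring
      rw [e1, e2] at b5
      exact b5)
  have hr := sum_r_le hGSM k₀ me A D CF Y (by omega) hD.le hCF.le hY
  obtain ⟨hh0, hh1⟩ := hHAR k₀ me (by omega) hme1
  have hlast := (hmono k (me - me / 500) hkk (by
    have : me ≤ A * me := Nat.le_mul_of_pos_left _ (by omega)
    omega)).1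
  have hcoef : 0 ≤ 600 * (3 + D * 10 ^ 8) * δ := by positivity
  have hh2 : 600 * (3 + D * 10 ^ 8) * δ * (1 + ∑ m ∈ Icc k₀ me, 1 / (m : ℝ)) ≤
      600 * (3 + D * 10 ^ 8) * δ * (2 + Real.log me) := by
    refine mul_le_mul_of_nonneg_left ?_ hcoef
    linarith
  have hT' : t lam X k₀ - t lam X (me - me / 500) ≤ 24 / A + 600 * η * A +
      1200 * B * (D * E) + 18000 * (D * 10 ^ 8) / k₀ +
      600 * ∑ m ∈ Icc k₀ me, 1 / (m : ℝ) * (D * (CF * (m + 1) / Y + (1 / 2) ^ (m / 2000) +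
        (A * m + 1) / Y)) +
      600 * (3 + D * 10 ^ 8) * δ * (1 + ∑ m ∈ Icc k₀ me, 1 / (m : ℝ)) := hT
  linarith

theorem pf_EN3 (hTEL : T_TEL) (hKCH : T_KCH) (hHAR : T_HAR) (hGSM : T_GSM) (hLIM : T_LIM)
    (hMN2 : T_MN2) (hFAI : T_FAI) (hTBD : T_TBD) (hBAJ : T_BAJ) (hBES : T_BES3)
    (hLEV : T_LEV3) : T_EN3 := by
  obtain ⟨B₀, hB₀, hbes⟩ := hBES
  obtain ⟨CL, m₁, hCL, hm₁, hlev⟩ := hLEV
  obtain ⟨CM, hCM, hmn⟩ := hMN2
  obtain ⟨CF, hCF, hfai⟩ := hFAI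
  obtain ⟨B, hBB, hB2⟩ : ∃ B : ℕ, B₀ ≤ B ∧ 2 ≤ B := ⟨max B₀ 2, le_max_left _ _, le_max_right _ _⟩
  have hBr : (2 : ℝ) ≤ B := by exact_mod_cast hB2
  refine ⟨4000 * B, by omega, ?_⟩
  intro ε hε
  obtain ⟨A, hA2, hAε⟩ : ∃ A : ℕ, 2 ≤ A ∧ 240 / ε ≤ A :=
    ⟨⌈240 / ε⌉₊ + 2, by omega, by
      have := Nat.le_ceil (240 / ε)
      push_cast
      linarith⟩
  have hA0 : (0 : ℝ) < A := by
    have : (2 : ℝ) ≤ A := by exact_mod_cast hA2
    linarith
  obtain ⟨η, hη0, hη1, hηε⟩ : ∃ η : ℝ, 0 < η ∧ η ≤ 1 ∧ 600 * η * A ≤ ε / 10 := by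
    refine ⟨min 1 (ε / (6000 * A)), lt_min one_pos (by positivity), min_le_left _ _, ?_⟩
    have h1 : min 1 (ε / (6000 * A)) ≤ ε / (6000 * A) := min_le_right _ _
    have h2 : 600 * min 1 (ε / (6000 * A)) * A ≤ 600 * (ε / (6000 * A)) * A := by gcongr
    refine h2.trans (le_of_eq ?_)
    field_simp
    norm_num
  obtain ⟨D, hDd⟩ : ∃ D : ℝ, D = CL / η := ⟨_, rfl⟩
  have hD : 0 < D := by rw [hDd]; positivity
  obtain ⟨ε₁, hε₁d⟩ : ∃ ε₁ : ℝ, ε₁ = ε / (24000 * B * D) := ⟨_, rfl⟩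
  have hε₁ : 0 < ε₁ := by rw [hε₁d]; positivity
  obtain ⟨e, he, hbes⟩ := hbes ε₁ hε₁
  refine ⟨e, he, ?_⟩
  intro R
  obtain ⟨s₁, hs₁⟩ := hbes R
  obtain ⟨y, hy1, hy2, hy3⟩ : ∃ y : ℕ, 1 ≤ y ∧ 180000 * (D * 10 ^ 8) / ε ≤ y ∧
      24000000 * D / ε ≤ y :=
    ⟨⌈180000 * (D * 10 ^ 8) / ε⌉₊ + ⌈24000000 * D / ε⌉₊ + 1, by omega, by
      have := Nat.le_ceil (180000 * (D * 10 ^ 8) / ε)
      push_cast
      have h2 : (0 : ℝ) ≤ (⌈24000000 * D / ε⌉₊ : ℝ) := Nat.cast_nonneg _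
      linarith, by
      have := Nat.le_ceil (24000000 * D / ε)
      push_cast
      have h2 : (0 : ℝ) ≤ (⌈180000 * (D * 10 ^ 8) / ε⌉₊ : ℝ) := Nat.cast_nonneg _
      linarith⟩
  obtain ⟨G, hGd⟩ : ∃ G : ℝ, G = 9600 * B * D + 1200 * D * (2 * CF + A + 1) +
    (1800 * (3 + D * 10 ^ 8) + 1) * (2 * A * CM) := ⟨_, rfl⟩
  have hG : 0 < G := by rw [hGd]; positivity
  obtain ⟨X₂, hX₂, hlim⟩ := hLIM (ε / (10 * G)) (by positivity)
  refine ⟨s₁ + y + 100 * A + m₁ + 1, ?_⟩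
  intro s hs
  obtain ⟨X₁, hX₁⟩ := hs₁ s (by omega)
  refine ⟨max X₁ X₂, ?_⟩
  intro X lam hX hlam hbase k₀ k hk₀ hk hkX16
  have hXX : X₂ ≤ X := le_trans (le_max_right _ _) hX
  have hX3 : 3 ≤ X := hX₂.trans hXX
  have hX3r : (3 : ℝ) ≤ X := by exact_mod_cast hX3
  have hY1 : 1 ≤ Real.log X := by
    rw [Real.le_log_iff_exp_le (by linarith)]
    have := Real.exp_one_lt_d9
    linarith
  set Y := Real.log X with hYd
  have hY : 0 < Y := by linarith
  have hl1 : ∀ n, |lam n| ≤ 1 := by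
    intro n
    rcases hlam.pm n with h | h <;> rw [h] <;> norm_num
  have hkX : (k : ℝ) ≤ 2 * Y ^ (24 / 25 : ℝ) := by
    have h1 : ((16 : ℝ) ^ k) ^ (24 / 25 : ℝ) ≤ Y ^ (24 / 25 : ℝ) :=
      Real.rpow_le_rpow (by positivity) hkX16 (by norm_num)
    have h2 : (2 : ℝ) ^ k ≤ ((16 : ℝ) ^ k) ^ (24 / 25 : ℝ) := by
      have h3 : ((16 : ℝ) ^ k) ^ (24 / 25 : ℝ) = ((16 : ℝ) ^ (24 / 25 : ℝ)) ^ k := by
        rw [← Real.rpow_natCast (16 : ℝ) k, ← Real.rpow_mul (by norm_num),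
          ← Real.rpow_natCast ((16 : ℝ) ^ (24 / 25 : ℝ)) k, ← Real.rpow_mul (by norm_num),
          mul_comm]
      rw [h3]
      refine pow_le_pow_left₀ (by norm_num) ?_ k
      have h4 : (16 : ℝ) ^ (1 / 4 : ℝ) ≤ (16 : ℝ) ^ (24 / 25 : ℝ) :=
        Real.rpow_le_rpow_of_exponent_le (by norm_num) (by norm_num)
      have h5 : (16 : ℝ) ^ (1 / 4 : ℝ) = 2 := by
        rw [show (16 : ℝ) = 2 ^ (4 : ℕ) by norm_num, ← Real.rpow_natCast,
          ← Real.rpow_mul (by norm_num)]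
        norm_num
      linarith
    have h6 : (k : ℝ) ≤ 2 ^ k := by
      have : k < 2 ^ k := Nat.lt_two_pow_self
      exact_mod_cast this.le
    have h7 : 0 ≤ Y ^ (24 / 25 : ℝ) := by positivity
    linarith
  have hBs : s ≤ B * s := Nat.le_mul_of_pos_left _ (by omega)
  have hk₀s : 4000 * s ≤ k₀ := by
    have h1 : 4000 * B * s = 4000 * (B * s) := by ring
    rw [h1] at hk₀
    omega
  have hk1 : 1 ≤ k := by omega
  have hΦ := hlim X k hXX hkX
  rw [← hYd] at hΦ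
  obtain ⟨Φ, hΦd⟩ : ∃ Φ : ℝ, Φ = ((k : ℝ) + 1) * (1 + Real.log (k + 1)) := ⟨_, rfl⟩
  rw [← hΦd] at hΦ
  have hk0r : (0 : ℝ) ≤ k := Nat.cast_nonneg _
  have hlog0 : 0 ≤ Real.log ((k : ℝ) + 1) := Real.log_nonneg (by linarith)
  have hΦk : (k : ℝ) + 1 ≤ Φ := by
    rw [hΦd]
    nlinarith
  have hΦl : 1 + Real.log ((k : ℝ) + 1) ≤ Φ := by
    rw [hΦd]
    nlinarith
  have hΦ0 : 0 < Φ := by linarith
  -- the sum over a chain
  obtain ⟨E, hEd⟩ : ∃ E : ℝ, E = 2 * ε₁ + 8 * Φ / Y := ⟨_, rfl⟩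
  have hE : ∀ (K : ℕ) (c : ℕ → ℕ), Chn B k₀ (2 * k) K c →
      ∑ i ∈ range K, (bA lam X (c i) + bJ lam X (c i)) ≤ E * Real.log X := by
    intro K c hc
    rw [← hYd]
    have hEY : E * Y = 2 * ε₁ * Y + 8 * Φ := by
      rw [hEd]
      field_simp
    rw [hEY]
    rcases Nat.eq_zero_or_pos K with h0 | h0
    · subst h0
      rw [sum_range_zero]
      positivity
    · have hK := chn_le hKCH hB2 (by omega) hk1 hc
      have hK4 : (K : ℝ) ≤ 4 * Φ := by linarith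
      choose αA gA hgA hA using fun i => (hBAJ lam X (c i) hl1).2.2.2.2.1
      choose βB hβB using fun i => (hBAJ lam X (c i) hl1).2.2.2.2.2
      obtain ⟨hbA, hbB⟩ := hX₁ X K (2 * k) lam c (le_trans (le_max_left _ _) hX) hlam.pm hbase
        (by
          have h2 := (hc.1 0 h0).1
          have h3 : B₀ * s ≤ B * s := Nat.mul_le_mul_right _ hBB
          have h4 : 4000 * B * s = 4000 * (B * s) := by ring
          rw [h4] at hk₀
          omega) (fun i hi => by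
          have h2 := hc.2 i hi
          have h3 : B₀ * c i ≤ B * c i := Nat.mul_le_mul_right _ hBB
          omega) (fun i hi => (hc.1 i hi).2) (by
          have h5 : (4 : ℝ) ^ (2 * k) = 16 ^ k := by
            rw [pow_mul]; norm_num
          rw [h5]
          exact hkX16)
      have h1 := hbA αA gA (fun i _ n q hq => hgA i n q hq)
      obtain ⟨αB, hαB, h2⟩ := hbB βB
      have h3 : ∑ i ∈ range K, (bA lam X (c i) + bJ lam X (c i)) ≤
          ∑ i ∈ range K, (bv lam X (c i) (fun n _ => αA i n) (gA i) + 1) +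
          ∑ i ∈ range K, (bj lam X (c i) (αB i) + 1) := by
        rw [← sum_add_distrib]
        refine sum_le_sum fun i hi => ?_
        rw [mem_range] at hi
        exact add_le_add (hA i) (hβB i (αB i) (hαB i hi))
      have h3a : ∑ i ∈ range K, (bv lam X (c i) (fun n _ => αA i n) (gA i) + 1) =
          ∑ i ∈ range K, bv lam X (c i) (fun n _ => αA i n) (gA i) + K := by
        rw [sum_add_distrib, sum_const, card_range, nsmul_eq_mul, mul_one]
      have h3b : ∑ i ∈ range K, (bj lam X (c i) (αB i) + 1) =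
          ∑ i ∈ range K, bj lam X (c i) (αB i) + K := by
        rw [sum_add_distrib, sum_const, card_range, nsmul_eq_mul, mul_one]
      rw [h3a, h3b] at h3
      have h4 : ∑ i ∈ range K, bv lam X (c i) (fun n _ => αA i n) (gA i) ≤ ε₁ * Y := h1
      rw [← hYd] at h2
      linarith
  have hcore := coreG hTEL hHAR hGSM hTBD hCL hCM hCF (fun lam X m => bA lam X m + bJ lam X m)
    (fun lam X m hl => add_nonneg (hBAJ lam X m hl).1 (hBAJ lam X m hl).2.1) hlev hmn hfai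
    lam X A B k₀ k η E hX3 hlam hA2 hB2 hη0 hη1 (by omega) (by omega) (by omega) hk hE
  rw [← hDd, ← hYd] at hcore
  -- the single terms
  have t1 : 24 / (A : ℝ) ≤ ε / 10 := by
    rw [div_le_iff₀ hA0]
    rw [div_le_iff₀ hε] at hAε
    linarith
  have t3a : 1200 * B * (D * (2 * ε₁)) = ε / 10 := by
    rw [hε₁d]
    field_simp
    norm_num
  have t4 : 18000 * (D * 10 ^ 8) / (k₀ : ℝ) ≤ ε / 10 := by
    have hk₀0 : (0 : ℝ) < k₀ := by
      have : 0 < k₀ := by omega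
      exact_mod_cast this
    have h1 : (y : ℝ) ≤ k₀ := by
      have : y ≤ k₀ := by omega
      exact_mod_cast this
    rw [div_le_iff₀ hk₀0]
    rw [div_le_iff₀ hε] at hy2
    nlinarith
  have t5 : 600 * (D * (4000 * (1 / 2) ^ (k₀ / 2000))) ≤ ε / 10 := by
    have hy0 : (0 : ℝ) < y := by exact_mod_cast hy1
    have h1 : ((1 : ℝ) / 2) ^ (k₀ / 2000) ≤ 1 / y := by
      apply half_pow_le hy0
      have : y ≤ k₀ / 2000 := by omega
      exact_mod_cast this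
    have h2 : 600 * (D * (4000 * (1 / 2) ^ (k₀ / 2000))) ≤ 600 * (D * (4000 * (1 / y))) := by
      gcongr
    refine h2.trans ?_
    have h3 : 600 * (D * (4000 * (1 / (y : ℝ)))) = 2400000 * D / y := by ring
    rw [h3, div_le_iff₀ hy0]
    rw [div_le_iff₀ hε] at hy3
    linarith
  have hGΦ : G * (Φ / Y) ≤ ε / 10 := by
    have h1 : Φ / Y ≤ ε / (10 * G) := by
      rw [div_le_iff₀ hY]; exact hΦ
    have h2 := mul_le_mul_of_nonneg_left h1 hG.le
    refine h2.trans (le_of_eq ?_)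
    field_simp
  have t3c : 1200 * B * (D * (8 * Φ / Y)) = 9600 * B * D * (Φ / Y) := by ring
  have t6 : 600 * (D * ((2 * k : ℕ) * (2 * CF + A + 1) / Y)) ≤
      1200 * D * (2 * CF + A + 1) * (Φ / Y) := by
    have h1 : ((2 * k : ℕ) : ℝ) ≤ 2 * Φ := by
      push_cast
      linarith
    have h2 : 600 * (D * ((2 * k : ℕ) * (2 * CF + A + 1) / Y)) ≤
      600 * (D * (2 * Φ * (2 * CF + A + 1) / Y)) := by gcongr
    refine h2.trans (le_of_eq ?_)
    ring
  have hAk : ((A * (2 * k) : ℕ) : ℝ) + 1 ≤ 2 * A * (k + 1) := by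
    push_cast
    have : (2 : ℝ) ≤ A := by exact_mod_cast hA2
    linarith
  have hl2k : 2 + Real.log ((2 * k : ℕ) : ℝ) ≤ 3 * (1 + Real.log (k + 1)) := by
    have hk' : (0 : ℝ) < k := by exact_mod_cast hk1
    push_cast
    rw [Real.log_mul (by norm_num) hk'.ne']
    have h1 : Real.log (k : ℝ) ≤ Real.log (k + 1) := Real.log_le_log hk' (by linarith)
    have h2 := Real.log_two_lt_d9
    linarith
  have hl2k0 : 0 ≤ 2 + Real.log ((2 * k : ℕ) : ℝ) := by
    have : 0 ≤ Real.log ((2 * k : ℕ) : ℝ) := Real.log_natCast_nonneg _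
    linarith
  have t7 : 600 * (3 + D * 10 ^ 8) * (CM * ((A * (2 * k) : ℕ) + 1) / Y) *
      (2 + Real.log (2 * k : ℕ)) ≤ 1800 * (3 + D * 10 ^ 8) * (2 * A * CM) * (Φ / Y) := by
    have h1 : 600 * (3 + D * 10 ^ 8) * (CM * ((A * (2 * k) : ℕ) + 1) / Y) *
        (2 + Real.log (2 * k : ℕ)) ≤ 600 * (3 + D * 10 ^ 8) * (CM * (2 * A * (k + 1)) / Y) *
        (3 * (1 + Real.log (k + 1))) := by gcongr
    refine h1.trans (le_of_eq ?_)
    rw [hΦd]
    ring
  have t8 : CM * ((A * (2 * k) : ℕ) + 1) / Y ≤ (2 * A * CM) * (Φ / Y) := by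
    have h1 : CM * ((A * (2 * k) : ℕ) + 1) / Y ≤ CM * (2 * A * Φ) / Y := by
      gcongr
      exact hAk.trans (by gcongr)
    refine h1.trans (le_of_eq ?_)
    ring
  have hEX : 1200 * B * (D * E) = 1200 * B * (D * (2 * ε₁)) + 1200 * B * (D * (8 * Φ / Y)) := by
    rw [hEd]
    ring
  have h5X : 600 * (D * (4000 * (1 / 2) ^ (k₀ / 2000) +
        (2 * k : ℕ) * (2 * CF + A + 1) / Y)) =
      600 * (D * (4000 * (1 / 2) ^ (k₀ / 2000))) +
        600 * (D * ((2 * k : ℕ) * (2 * CF + A + 1) / Y)) := by ring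
  have hGX : G * (Φ / Y) = 9600 * B * D * (Φ / Y) +
      1200 * D * (2 * CF + A + 1) * (Φ / Y) +
      1800 * (3 + D * 10 ^ 8) * (2 * A * CM) * (Φ / Y) + (2 * A * CM) * (Φ / Y) := by
    rw [hGd]
    ring
  linarith

end Pool.Agent.H72.EN
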