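import Pool.Agent.H72.EN.Full
import Pool.Agent.H3.BES.Fin

/-!
# The energy is almost constant on the whole range of scales
-/

set_option autoImplicit false

namespace Pool.Agent.H72.EN

/-- EN. The energy is almost constant on the whole range of scales. -/
theorem EN : Pool.Agent.H93.EB.T_EN := en Pool.Agent.H3.BES.bes

end Pool.Agent.H72.EN
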